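import Pool.Agent.W601.RP.Stm2

/-! RP-ANT (for project RP of helper601). -/

set_option autoImplicit false
open scoped Classical
open Filter Topology

namespace Pool.Agent.W675.RP

open Pool.Agent.W601.RP

theorem geo_le (n : ℕ) : ∑ l ∈ Finset.range n, (1 / 2 : ℝ) ^ (l + 2) ≤ 1 / 2 := by
  have h : ∀ n : ℕ, ∑ l ∈ Finset.range n, (1 / 2 : ℝ) ^ (l + 2) = 1 / 2 - (1 / 2 : ℝ) ^ (n + 1) := by
    intro n
    induction n with
    | zero => norm_num
    | succ n ih => rw [Finset.sum_range_succ, ih]; ring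
  rw [h]
  have : (0 : ℝ) < (1 / 2 : ℝ) ^ (n + 1) := by positivity
  linarith

theorem N_ge (t : ℕ) : 2 ≤ N t := by
  unfold N
  have := Nat.factorial_pos (t + 1)
  omega

theorem N_pos (t : ℕ) : 0 < N t := by have := N_ge t; omega

/-- extraction of a fast subsequence -/
theorem extr (e : ℕ → ℕ) (he : Function.Injective e) (thr : ℕ → ℕ) (sp : ℕ → ℕ) :
    ∃ i : ℕ → ℕ, StrictMono i ∧ (∀ l, thr l ≤ e (i l)) ∧ ∀ l, sp (i l) < e (i (l + 1)) := by
  have h1 : ∀ n T : ℕ, ∃ j, n < j ∧ T ≤ e j := by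
    intro n T
    have hfin : {j | e j < T}.Finite := by
      have : {j | e j < T} = e ⁻¹' (Set.Iio T) := rfl
      rw [this]
      exact (Set.finite_Iio T).preimage he.injOn
    have hfin2 : ({j | e j < T} ∪ Set.Iic n).Finite := hfin.union (Set.finite_Iic n)
    obtain ⟨j, hj⟩ := hfin2.infinite_compl.nonempty
    simp only [Set.mem_compl_iff, Set.mem_union, Set.mem_ofPred_eq, Set.mem_Iic, not_or, not_lt, not_le] at hj
    exact ⟨j, hj.2, hj.1⟩
  choose f hf1 hf2 using h1
  let i : ℕ → ℕ := fun l => Nat.rec (f 0 (thr 0)) (fun l p => f p (max (thr (l + 1)) (sp p + 1))) l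
  have hi0 : i 0 = f 0 (thr 0) := rfl
  have his : ∀ l, i (l + 1) = f (i l) (max (thr (l + 1)) (sp (i l) + 1)) := fun l => rfl
  refine ⟨i, strictMono_nat_of_lt_succ ?_, ?_, ?_⟩
  · intro l
    rw [his]
    exact hf1 _ _
  · intro l
    cases l with
    | zero => rw [hi0]; exact hf2 _ _
    | succ l =>
      rw [his]
      exact le_trans (le_max_left _ _) (hf2 _ _)
  · intro l
    rw [his]
    have := le_trans (le_max_right (thr (l + 1)) (sp (i l) + 1)) (hf2 (i l) (max (thr (l + 1)) (sp (i l) + 1)))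
    omega

/-- locating a number between consecutive terms -/
theorem locate (u : ℕ → ℕ) (hu : StrictMono u) (t : ℕ) (ht : u 0 ≤ t) : ∃ l, u l ≤ t ∧ t < u (l + 1) := by
  have hex : ∃ m, t < u m := ⟨t + 1, lt_of_lt_of_le (Nat.lt_succ_self t) (hu.id_le (t + 1))⟩
  have h1 := Nat.find_spec hex
  have h2 : Nat.find hex ≠ 0 := by
    intro h0
    rw [h0] at h1
    omega
  obtain ⟨l, hl⟩ := Nat.exists_eq_succ_of_ne_zero h2
  refine ⟨l, ?_, ?_⟩
  · have := Nat.find_min hex (m := l) (by omega)
    omega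
  · rw [hl] at h1
    exact h1

/-- the sum of the weights over a sparse union -/
theorem sum_bd (u : ℕ → ℕ) (hu : StrictMono u) (U : ℕ → Finset ℕ) (L : ℕ) (hL : ∀ l, (U l).card ≤ L)
    (hU : ∀ l, ∀ t ∈ U l, u l ≤ t) (hnn : ∀ t, 0 ≤ nu t)
    (hb : ∀ l, ∀ t ∈ U l, nu t ≤ (1 / 2 : ℝ) ^ (l + 2) / ((L : ℝ) + 1)) (W : Set ℕ)
    (hW : ∀ t ∈ W, ∃ l, t ∈ U l) :
    Summable (W.indicator nu) ∧ (∑' t, W.indicator nu t) < 1 := by
  have hn : ∀ t, 0 ≤ W.indicator nu t := fun t => Set.indicator_nonneg (fun t _ => hnn t) t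
  have key : ∀ s : Finset ℕ, ∑ t ∈ s, W.indicator nu t ≤ 1 / 2 := by
    intro s
    obtain ⟨n, hn'⟩ : ∃ n, ∀ t ∈ s, t < u n := by
      refine ⟨s.sup id + 1, ?_⟩
      intro t ht
      have h1 : t ≤ s.sup id := Finset.le_sup (f := id) ht
      have h2 := hu.id_le (s.sup id + 1)
      simp only [id] at h2
      omega
    have h1 : ∑ t ∈ s, W.indicator nu t ≤
        ∑ t ∈ s, ∑ l ∈ Finset.range n, (if t ∈ U l then nu t else 0) := by
      apply Finset.sum_le_sum
      intro t ht
      have hnn2 : ∀ l ∈ Finset.range n, 0 ≤ (if t ∈ U l then nu t else 0) := by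
        intro l _
        split_ifs
        · exact hnn t
        · exact le_refl 0
      by_cases htW : t ∈ W
      · obtain ⟨l, hl⟩ := hW t htW
        have hln : l < n := by
          by_contra hcon
          push Not at hcon
          have h3 := hU l t hl
          have h4 := hn' t ht
          have h5 := hu.monotone hcon
          omega
        rw [Set.indicator_of_mem htW]
        have h6 := Finset.single_le_sum hnn2 (Finset.mem_range.mpr hln)
        rw [if_pos hl] at h6
        exact h6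
      · rw [Set.indicator_of_notMem htW]
        exact Finset.sum_nonneg hnn2
    rw [Finset.sum_comm] at h1
    have h2 : ∀ l ∈ Finset.range n, ∑ t ∈ s, (if t ∈ U l then nu t else 0) ≤ (1 / 2 : ℝ) ^ (l + 2) := by
      intro l _
      have h3 : ∑ t ∈ s, (if t ∈ U l then nu t else 0) ≤ ∑ t ∈ U l, nu t := by
        rw [← Finset.sum_filter]
        apply Finset.sum_le_sum_of_subset_of_nonneg
        · intro t ht
          exact (Finset.mem_filter.mp ht).2
        · intro t _ _
          exact hnn t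
      have h4 : ∑ t ∈ U l, nu t ≤ (U l).card • ((1 / 2 : ℝ) ^ (l + 2) / ((L : ℝ) + 1)) :=
        Finset.sum_le_card_nsmul _ _ _ (hb l)
      rw [nsmul_eq_mul] at h4
      have h5 : ((U l).card : ℝ) ≤ (L : ℝ) + 1 := by
        have := hL l
        have : ((U l).card : ℝ) ≤ (L : ℝ) := by exact_mod_cast this
        linarith
      have h6 : ((U l).card : ℝ) * ((1 / 2 : ℝ) ^ (l + 2) / ((L : ℝ) + 1)) ≤
          ((L : ℝ) + 1) * ((1 / 2 : ℝ) ^ (l + 2) / ((L : ℝ) + 1)) :=
        mul_le_mul_of_nonneg_right h5 (by positivity)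
      have h7 : ((L : ℝ) + 1) * ((1 / 2 : ℝ) ^ (l + 2) / ((L : ℝ) + 1)) = (1 / 2 : ℝ) ^ (l + 2) := by
        have : ((L : ℝ) + 1) ≠ 0 := by positivity
        field_simp
      linarith
    exact le_trans h1 (le_trans (Finset.sum_le_sum h2) (geo_le n))
  have hs : Summable (W.indicator nu) := summable_of_sum_le hn key
  refine ⟨hs, ?_⟩
  have := hs.tsum_le_of_sum_le key
  linarith

theorem ant : S_GH → S_NU0 → S_CIR → S_ANT := by
  intro hGH hNU hCIR k hRed hNull hLex e he hinc hsupp
  obtain ⟨L, hL⟩ := hLex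
  obtain ⟨hNU1, hNU2, hNU3⟩ := hNU
  obtain ⟨-, -, -, hC4, -⟩ := hCIR
  -- thresholds
  have hthr : ∀ l : ℕ, ∃ T : ℕ, ∀ t, T ≤ t → nu t ≤ (1 / 2 : ℝ) ^ (l + 2) / ((L : ℝ) + 1) := by
    intro l
    have hδ : (0 : ℝ) < (1 / 2 : ℝ) ^ (l + 2) / ((L : ℝ) + 1) := by positivity
    obtain ⟨B, hB⟩ := (hNU1 _ hδ).bddAbove
    refine ⟨B + 1, ?_⟩
    intro t ht
    by_contra hcon
    push Not at hcon
    have : t ≤ B := hB (show t ∈ {t | _ ≤ nu t} from hcon.le)
    omega
  choose thr hthr using hthr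
  obtain ⟨i, hi, hi1, hi2⟩ := extr e he thr (fun j => (k j).support.sup id)
  let u : ℕ → ℕ := fun l => e (i l)
  have hsup : ∀ l, ∀ t ∈ (k (i l)).support, t < u (l + 1) := by
    intro l t ht
    have h1 : t ≤ (k (i l)).support.sup id := Finset.le_sup (f := id) ht
    exact lt_of_le_of_lt h1 (hi2 l)
  have hus : ∀ l, u l ∈ (k (i l)).support := fun l => hsupp (i l)
  have hu : StrictMono u := strictMono_nat_of_lt_succ (fun l => hsup l _ (hus l))
  have hbd := sum_bd u hu (fun l => (k (i l)).support.filter (fun t => u l ≤ t)) L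
    (fun l => le_trans (Finset.card_filter_le _ _) (hL (i l)))
    (fun l t ht => (Finset.mem_filter.mp ht).2) hNU3
    (fun l t ht => hthr l t (le_trans (hi1 l) (Finset.mem_filter.mp ht).2))
    (⋃ l, {t | t ∈ (k (i l)).support ∧ u l ≤ t})
    (by
      intro t ht
      obtain ⟨l, hl⟩ := Set.mem_iUnion.mp ht
      exact ⟨l, Finset.mem_filter.mpr hl⟩)
  have hka : ∀ l, k (i l) (u l) ≠ 0 := fun l => Finsupp.mem_support_iff.mp (hus l)
  have hC : ∀ l, ∃ a : ℕ, a < N (u l) ∧
      1 / 4 ≤ ‖k (i l) (u l) • ((((a : ℝ) / (N (u l) : ℝ)) : ℝ) : TT)‖ := by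
    intro l
    obtain ⟨a, ha, -, ha2⟩ := hC4 (N (u l)) (k (i l) (u l)) (N_ge _) (hka l) (hRed (i l) (u l)).1
      (hRed (i l) (u l)).2
    exact ⟨a, ha, ha2⟩
  choose a ha1 ha2 using hC
  obtain ⟨q, hq, hq2⟩ := hGH (fun l => k (i l)) u hu hsup hbd.1 hbd.2
    (fun l => {0, Function.update (0 : ℕ → ℕ) (u l) (a l)})
    (by
      intro l f hf t
      rcases hf with rfl | hf
      · refine ⟨N_pos t, ?_⟩
        intro h
        exact absurd rfl h
      · rw [Set.mem_singleton_iff] at hf
        subst hf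
        by_cases h : t = u l
        · subst h
          rw [Function.update_self]
          exact ⟨ha1 l, fun _ => ⟨hus l, le_refl _⟩⟩
        · rw [Function.update_of_ne h]
          exact ⟨N_pos t, fun h => absurd rfl h⟩)
    (by
      intro l r
      by_cases hr : 1 / 8 ≤ ‖r‖
      · refine ⟨0, Or.inl rfl, ?_⟩
        have hz : ∑ t ∈ (k (i l)).support.filter (fun t => u l ≤ t),
            (k (i l) t) • (((((0 : ℕ → ℕ) t : ℕ) : ℝ) / (N t : ℝ) : ℝ) : TT) = 0 := by
          apply Finset.sum_eq_zero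
          intro t _
          simp
        rw [hz, add_zero]
        exact hr
      · refine ⟨Function.update (0 : ℕ → ℕ) (u l) (a l), Or.inr rfl, ?_⟩
        have hz : ∑ t ∈ (k (i l)).support.filter (fun t => u l ≤ t),
            (k (i l) t) • ((((Function.update (0 : ℕ → ℕ) (u l) (a l) t : ℕ) : ℝ) / (N t : ℝ) : ℝ) : TT) =
            k (i l) (u l) • ((((a l : ℝ) / (N (u l) : ℝ)) : ℝ) : TT) := by
          rw [Finset.sum_eq_single (u l)]
          · rw [Function.update_self]
          · intro t _ hne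
            rw [Function.update_of_ne hne]
            simp
          · intro h
            exact absurd (Finset.mem_filter.mpr ⟨hus l, le_refl _⟩) h
        rw [hz]
        push Not at hr
        have h1 := ha2 l
        have h2 := norm_sub_norm_le (k (i l) (u l) • ((((a l : ℝ) / (N (u l) : ℝ)) : ℝ) : TT)) (-r)
        rw [norm_neg, sub_neg_eq_add, add_comm _ r] at h2
        linarith)
    (by
      intro g hg0 hg A hA η hη
      apply Set.Subsingleton.finite
      have hnz : ∀ t, g t ≠ 0 → ∃ l, t = e (i l) := by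
        intro t ht
        have h0 : u 0 ≤ t := by
          by_contra hcon
          push Not at hcon
          exact ht (hg0 t hcon)
        obtain ⟨l, hl1, hl2⟩ := locate u hu t h0
        obtain ⟨f, hf, hf2⟩ := hg l
        have h3 := hf2 t hl1 hl2
        rcases hf with rfl | hf
        · exact absurd h3 ht
        · rw [Set.mem_singleton_iff] at hf
          subst hf
          by_cases h : t = u l
          · exact ⟨l, h⟩
          · rw [Function.update_of_ne h] at h3
            exact absurd h3 ht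
      have hmem : ∀ t, η ≤ ‖((((g t : ℝ) / (N t : ℝ)) : ℝ) : TT)‖ → g t ≠ 0 := by
        intro t ht h0
        rw [h0] at ht
        simp at ht
        linarith
      intro t ht t' ht'
      by_contra hne
      obtain ⟨l, hl⟩ := hnz t (hmem t ht.2)
      obtain ⟨l', hl'⟩ := hnz t' (hmem t' ht'.2)
      have hcmp := hA t ht.1 t' ht'.1 hne
      rw [hl, hl'] at hcmp
      refine hinc (i l) (i l') ?_ hcmp
      intro h
      apply hne
      rw [hl, hl', h])
  have hH : x q ∈ H := AddSubgroup.subset_closure ⟨q, hq, rfl⟩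
  have ht := (hNull (x q) hH).comp hi.tendsto_atTop
  have ht2 : ∀ᶠ l in atTop, ‖pr (k (i l)) (x q)‖ < 1 / 8 := by
    have := (Metric.tendsto_nhds.mp ht) (1 / 8) (by norm_num)
    filter_upwards [this] with l hl
    simpa [dist_eq_norm] using hl
  obtain ⟨l, hl⟩ := ht2.exists
  have := hq2 l
  linarith

end Pool.Agent.W675.RP
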